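import Pool.Agent.H916L.MainFour
import Pool.Agent.H916L.MainThree

/-!
# The Tate conjecture for diagonal hypersurfaces over number fields, further degrees

Degrees `m = 2 ^ a * q ^ b`, `a ≥ 2`, `q` an odd prime modulo which `2` is not a square, and degrees
`m = p ^ a * q ^ b * r ^ d` or twice this, `p`, `q`, `r` primes such that `q` is not a square modulo
`p`, `r` is not a square modulo `q`, `p` is not a square modulo `r` (in particular the three primes
are odd and distinct), but one of the three other residues is a square (example: `3`, `5`, `7`).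
Number fields `k` of odd degree or, more generally, such that the largest subfield of `k` which
embeds in the field of `2m`-th roots of unity has odd degree. Every eigenline of the cohomology of a
product of diagonal hypersurfaces of degree `m` over `k` on which the Galois group of `k(ζ_m)` acts
trivially belongs to the family generated by the standard characters, whose eigenlines are algebraic.
-/

namespace Pool.Agent.Results.MP_40dc3c_ag.DiagonalFurtherDegrees

open Pool.Agent.H916R2 Pool.Agent.H916L NumberField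
open scoped TensorProduct

/-- The degrees: `m = 2 ^ a * q ^ b` with `a ≥ 2`, `b ≥ 1`, `q` an odd prime modulo which `2` is not a
square; or `m = p ^ a * q ^ b * r ^ d` or `m = 2 * p ^ a * q ^ b * r ^ d` with `a`, `b`, `d ≥ 1` and
primes `p`, `q`, `r` such that `q` is not a square modulo `p`, `r` is not a square modulo `q` and `p`
is not a square modulo `r`, while one of the three other residues is a square. -/
def FurtherDegree (m : ℕ) : Prop :=
  (∃ q a b : ℕ, q.Prime ∧ q ≠ 2 ∧ ¬ IsSquare ((2 : ℕ) : ZMod q) ∧ 2 ≤ a ∧ 0 < b ∧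
    m = 2 ^ a * q ^ b) ∨
  (∃ p q r a b d : ℕ, p.Prime ∧ q.Prime ∧ r.Prime ∧ ¬ IsSquare ((q : ℕ) : ZMod p) ∧
    ¬ IsSquare ((r : ℕ) : ZMod q) ∧ ¬ IsSquare ((p : ℕ) : ZMod r) ∧
    (IsSquare ((r : ℕ) : ZMod p) ∨ IsSquare ((p : ℕ) : ZMod q) ∨ IsSquare ((q : ℕ) : ZMod r)) ∧
    0 < a ∧ 0 < b ∧ 0 < d ∧ (m = p ^ a * q ^ b * r ^ d ∨ m = 2 * (p ^ a * q ^ b * r ^ d)))

theorem result {m : ℕ} (hm : FurtherDegree m)
    (k : Type) [Field k] [NumberField k] (hk : Odd (Module.finrank ℚ k) ∨
      Odd (Nat.card (MaximalSpectrum (k ⊗[ℚ] CyclotomicField (2 * m) ℚ))))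
    {s : Multiset (ZMod m × 𝓞 k)} (hs : s ≠ 0) (heven : Even (Multiset.card s))
    (h0 : ∀ z ∈ s, z.1 ≠ 0 ∧ z.2 ≠ 0) (hsum : (s.map Prod.fst).sum = 0)
    (hR : RationalOver k m s) : Generated m (fun _ => False) (s.map Prod.fst) := by
  rcases hm with ⟨q, a, b, hq, hq2, hsq, ha, hb, hm⟩ |
    ⟨p, q, r, a, b, d, hp, hq, hr, n1, n2, n3, s1, ha, hb, hd, hm⟩
  · have hpos : 0 < m := by
      rw [hm]; have := hq.pos; positivity
    have hm2 : 2 ≤ m := by
      rw [hm]
      have h1 : 2 ^ 1 ≤ 2 ^ a := Nat.pow_le_pow_right (by norm_num) (by omega)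
      have h2 : 1 ≤ q ^ b := Nat.one_le_iff_ne_zero.mpr (pow_pos hq.pos b).ne'
      nlinarith
    have : NeZero (2 * m) := ⟨by omega⟩
    have hP := hasPrimes_of_odd (k := k) hk
    have hH := hodge_over2 (n := 2 * m) (dvd_mul_left m 2) hm2 hP (fun z hz => (h0 z hz).1) heven
      hsum (fun z hz => (h0 z hz).2) hR
    exact main_four_over hq hq2 hsq ha hb hm.symm hP hH hs (fun z hz => (h0 z hz).2) hR
  · have two : ∀ n : ℕ, IsSquare ((n : ℕ) : ZMod 2) := by
      intro n
      generalize ((n : ℕ) : ZMod 2) = x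
      revert x; decide
    have self : ∀ n : ℕ, IsSquare ((n : ℕ) : ZMod n) := fun n => ⟨0, by simp⟩
    have hp2 : p ≠ 2 := by rintro rfl; exact n1 (two q)
    have hq2 : q ≠ 2 := by rintro rfl; exact n2 (two r)
    have hr2 : r ≠ 2 := by rintro rfl; exact n3 (two p)
    have hpq : p ≠ q := by rintro rfl; exact n1 (self p)
    have hqr : q ≠ r := by rintro rfl; exact n2 (self q)
    have hpr : p ≠ r := by rintro rfl; exact n3 (self p)
    have hpos : 2 ≤ p ^ a * q ^ b * r ^ d := by
      have h1 : 2 ≤ p ^ a := le_trans hp.two_le (Nat.le_self_pow ha.ne' p)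
      have h2 : 0 < q ^ b := pow_pos hq.pos b
      have h3 : 0 < r ^ d := pow_pos hr.pos d
      calc 2 ≤ p ^ a := h1
        _ ≤ p ^ a * q ^ b := Nat.le_mul_of_pos_right _ h2
        _ ≤ p ^ a * q ^ b * r ^ d := Nat.le_mul_of_pos_right _ h3
    have hm2 : 2 ≤ m := by rcases hm with h | h <;> omega
    have : NeZero (2 * m) := ⟨by omega⟩
    have hP := hasPrimes_of_odd (k := k) hk
    have hH := hodge_over2 (n := 2 * m) (dvd_mul_left m 2) hm2 hP (fun z hz => (h0 z hz).1) heven
      hsum (fun z hz => (h0 z hz).2) hR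
    obtain ⟨c, hc, hcm⟩ : ∃ c : ℕ, (c = 1 ∨ c = 2) ∧ c * (p ^ a * q ^ b * r ^ d) = m := by
      rcases hm with h | h
      · exact ⟨1, Or.inl rfl, by rw [h, one_mul]⟩
      · exact ⟨2, Or.inr rfl, by rw [h]⟩
    exact main_three_cyc hp hq hr hp2 hq2 hr2 hpq hpr hqr n1 n2 n3 s1 ha hb hd hc hcm hP hH hs
      (fun z hz => (h0 z hz).2) hR

end Pool.Agent.Results.MP_40dc3c_ag.DiagonalFurtherDegrees
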