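import Pool.Agent.H916D.Main

/-!
# Tensor powers of Tate classes on Fermat varieties

For every prime `p` and every degree `m` prime to `p`: each Tate character of degree `m` has a
positive multiple which, after raising the degree to a suitable multiple prime to `p`, belongs to
the closure of the characters of surfaces and of the standard characters of Aoki. Hence some tensor
power of each Tate eigenclass on each Fermat variety in characteristic `p` is algebraic.
-/

namespace Pool.Agent.Results.MP_40dc3c_ag.FermatTensorPowers

open Pool.Agent.H916T

theorem result (p m : ℕ) (hp : p.Prime) (hm : 0 < m) (hpm : p.Coprime m) :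
    ∃ N : ℕ, 0 < N ∧ p.Coprime N ∧ ∀ s : Multiset (ZMod m), IsTate p m s → s ≠ 0 →
      ∃ k : ℕ, 0 < k ∧ Generated (N * m)
        (fun t => SurfaceTate p (N * m) t ∨
          ∃ q : ℕ, q.Prime ∧ q ∣ N * m ∧ Standard q (N * m) t)
        (k • (s.map fun a => ((N * a.val : ℕ) : ZMod (N * m)))) :=
  Pool.Agent.H916D.rationally_generated p m hp hm hpm

end Pool.Agent.Results.MP_40dc3c_ag.FermatTensorPowers
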