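import Mathlib
import Pool.Agent.H925R2.K3
import Pool.Agent.H925R2.DomField

/-!
# Tate classes on all powers of K3 surfaces of height two

Let `X` be a K3 surface of finite height over a finite field of characteristic `p`, `T` the
transcendental part of `H²(X̄, ℚ_ℓ(1))` and `F` the Frobenius.  The characteristic polynomial of
`F` on `T` is a power of an irreducible polynomial `f ∈ ℚ[X]`, whose complex roots have absolute
value `1`.  Tate classes on the powers `Xⁿ` are, apart from classes coming from the Picard group,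
the `F ^ s`-invariants in the tensor powers of `T`, that is (by duality) the `F ^ s`-invariant
multilinear forms on `T`.

We show: suppose that among the roots of `f` in the algebraic closure of `ℚ_p` there is a non-unit
`β` with `∑ |log ‖α‖| ≤ 4 |log ‖β‖|` (sum over all roots `α`), and that in the case of equality
every proper subfield of `ℚ(π)` is real, `π` a complex root of `f`.  Then every `F ^ s`-invariant
multilinear form is a linear combination of products of `F`-invariant bilinear forms.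

For a K3 surface of height two the inequality holds (there are at most two roots `α` with
`‖α‖ < 1`, and all non-units have the same `|log ‖α‖|`), so the only condition is the one on
subfields of `ℚ(π)`.
-/

namespace Pool.Agent.Results.MP_40dc3c_ag.SurfacePowersHeightTwo

open Polynomial

/-- The form `ψ` in `n` variables is a product of `F`-invariant bilinear forms: there is a perfect
matching `τ` of the `n` variables such that `ψ` is the product, over the matched pairs
`{i, τ i}` with `i < τ i`, of `B i (v i) (v (τ i))`, with `F`-invariant bilinear forms `B i`. -/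
def IsProductOfInvariantForms {Ω : Type*} [Field Ω] {V : Type*} [AddCommGroup V] [Module Ω V]
    (F : V →ₗ[Ω] V) {n : ℕ} (ψ : MultilinearMap Ω (fun _ : Fin n => V) Ω) : Prop :=
  ∃ (τ : Equiv.Perm (Fin n)) (B : Fin n → V →ₗ[Ω] V →ₗ[Ω] Ω),
    (∀ i, τ (τ i) = i) ∧ (∀ i, τ i ≠ i) ∧ (∀ i x y, B i (F x) (F y) = B i x y) ∧
    ∀ v, ψ v = ∏ i with i < τ i, B i (v i) (v (τ i))

theorem result (p : ℕ) [Fact p.Prime]
    (f : ℚ[X]) (hf : Irreducible f)
    (hunit : ∀ z : ℂ, aeval z f = 0 → ‖z‖ = 1)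
    (β : PadicAlgCl p) (hβ : aeval β f = 0) (hβ1 : ‖β‖ ≠ 1)
    (hdom : ∑ α : f.rootSet (PadicAlgCl p), |Real.log ‖α.1‖| ≤ 4 * |Real.log ‖β‖|)
    (π : ℂ) (hπ : aeval π f = 0)
    (heq : ∑ α : f.rootSet (PadicAlgCl p), |Real.log ‖α.1‖| = 4 * |Real.log ‖β‖| →
      ∀ E : Subfield ℂ, E < Subfield.closure {π} → ∀ z ∈ E, z.im = 0)
    (Ω : Type*) [Field Ω] [IsAlgClosed Ω] [CharZero Ω]
    (V : Type*) [AddCommGroup V] [Module Ω V] [FiniteDimensional Ω V] (F : V →ₗ[Ω] V)
    (hF : Submodule.span Ω {v : V | ∃ μ : Ω, aeval μ f = 0 ∧ F v = μ • v} = ⊤)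
    (n s : ℕ) (hs : 0 < s) (φ : MultilinearMap Ω (fun _ : Fin n => V) Ω)
    (hφ : ∀ v : Fin n → V, φ (fun i => (F ^ s) (v i)) = φ v) :
    φ ∈ Submodule.span Ω {ψ | IsProductOfInvariantForms F ψ} := by
  classical
  have hβ0 : β ≠ 0 := Pool.Agent.H925R2.padic_root_ne_zero hf one_pos
    (Pool.Agent.H925R2.weil_one hunit) p β hβ
  have hβlog : Real.log ‖β‖ ≠ 0 := by
    intro h
    apply hβ1
    exact Real.log_injOn_pos (norm_pos_iff.2 hβ0) (Set.mem_Ioi.2 one_pos)
      (h.trans Real.log_one.symm)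
  have hns : ∃ α : PadicAlgCl p, aeval α f = 0 ∧ Pool.Agent.H925R2.dev p (1 : ℚ) α ≠ 0 := by
    refine ⟨β, hβ, ?_⟩
    rw [Pool.Agent.H925R2.dev_one]
    exact mul_ne_zero two_ne_zero hβlog
  have hdev : ∀ α : PadicAlgCl p, |Pool.Agent.H925R2.dev p (1 : ℚ) α| = 2 * |Real.log ‖α‖| := by
    intro α
    rw [Pool.Agent.H925R2.dev_one, abs_mul, abs_two]
  let e : f.SplittingField →ₐ[ℚ] PadicAlgCl p := IsAlgClosed.lift
  have hroot : ∀ x : f.rootSet f.SplittingField, aeval (e x.1) f = 0 := by
    intro x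
    rw [aeval_algHom_apply, (mem_rootSet.1 x.2).2, map_zero]
  have hsum : ∑ x : f.rootSet f.SplittingField,
      |Pool.Agent.H925R2.dev p (1 : ℚ) (e x.1)| =
      2 * ∑ α : f.rootSet (PadicAlgCl p), |Real.log ‖α.1‖| := by
    rw [Finset.mul_sum]
    refine Fintype.sum_bijective
      (fun x : f.rootSet f.SplittingField =>
        (⟨e x.1, mem_rootSet.2 ⟨hf.ne_zero, hroot x⟩⟩ : f.rootSet (PadicAlgCl p))) ?_ _ _
      (fun x => hdev (e x.1))
    constructor
    · intro x y h
      exact Subtype.ext (e.injective (congrArg Subtype.val h))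
    · intro α
      obtain ⟨x, hx⟩ := Pool.Agent.H925R2.exists_root_eq hf e α.1 (mem_rootSet.1 α.2).2
      exact ⟨x, Subtype.ext hx⟩
  refine Pool.Agent.H925R2.multi_of_norel p hf hunit hns e ?_ F hF n s hs φ hφ
  intro c hc hrel
  by_contra hcon
  push Not at hcon
  obtain ⟨x₁, hx₁⟩ := Pool.Agent.H925R2.exists_root_eq hf e β hβ
  have _ : MulAction.IsPretransitive f.Gal (f.rootSet f.SplittingField) :=
    Pool.Agent.H925R2.gal_pretransitive hf
  obtain ⟨h1, J, hJ1, hJ2, hJ3⟩ := Pool.Agent.H925R2.dom_core (G := f.Gal)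
    (inv := Pool.Agent.H925R2.rinv hf one_pos (Pool.Agent.H925R2.weil_one hunit))
    (Pool.Agent.H925R2.rinv_rinv hf one_pos (Pool.Agent.H925R2.weil_one hunit))
    (Pool.Agent.H925R2.rinv_ne_of_dev hf one_pos (Pool.Agent.H925R2.weil_one hunit) p e hns)
    (Pool.Agent.H925R2.smul_rinv hf one_pos (Pool.Agent.H925R2.weil_one hunit))
    (fun x => Pool.Agent.H925R2.dev p (1 : ℚ) (e x.1)) c
    (Pool.Agent.H925R2.dev_rinv hf one_pos (Pool.Agent.H925R2.weil_one hunit) p e) hc hrel x₁ (by
      rw [hx₁, Pool.Agent.H925R2.dev_one]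
      exact mul_ne_zero two_ne_zero hβlog) (by
      rw [hsum, hx₁, hdev β]
      linarith) hcon
  rw [hsum, hx₁, hdev β] at h1
  exact Pool.Agent.H925R2.no_J hf one_pos (Pool.Agent.H925R2.weil_one hunit) π hπ
    (heq (by linarith)) x₁ J hJ1 hJ2 hJ3

end Pool.Agent.Results.MP_40dc3c_ag.SurfacePowersHeightTwo
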