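import Mathlib
import Pool.Agent.H925R2.K3
import Pool.Agent.H925R2.DT
import Pool.Agent.H925R2.Parity

/-!
# Tate classes on all powers of K3 surfaces of odd height with doubly transitive real field

Let `X` be a K3 surface of finite height over a finite field of characteristic `p`, `T` the
transcendental part of `H²(X̄, ℚ_ℓ(1))` and `F` the Frobenius.  The characteristic polynomial of
`F` on `T` is a power of an irreducible polynomial `f ∈ ℚ[X]`, whose complex roots have absolute
value `1`.  Tate classes on the powers `Xⁿ` are, apart from classes coming from the Picard group,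
the `F ^ s`-invariants in the tensor powers of `T`, that is (by duality) the `F ^ s`-invariant
multilinear forms on `T`.

For a root `α` of `f` in the algebraic closure of `ℚ_p` let `log ‖α‖ = κ u(α)` with integers `u(α)`
and a constant `κ ≠ 0`.  We show: if the Galois group of `f` acts doubly transitively on the numbers
`x + 1 / x`, the number of roots with odd `u` is not divisible by four and `|u|` is not constant,
then every `F ^ s`-invariant multilinear form is a linear combination of products of `F`-invariant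
bilinear forms.

For a K3 surface one can take `u = ±1` on the `2 h` roots which are not units (`h` divides the
height) and `u = 0` on the others; the condition is that `h` is odd and that there are roots which
are units.  Imaginary quadratic subfields are allowed.
-/

namespace Pool.Agent.Results.MP_40dc3c_ag.SurfacePowersParity

open Polynomial

/-- The Galois group of `f` (acting on its splitting field) is doubly transitive on the set of
numbers `x + 1 / x`, `x` a root of `f`. -/
def DoublyTransitiveOnTraces (f : ℚ[X]) : Prop :=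
  ∀ x y x' y' : f.SplittingField, aeval x f = 0 → aeval y f = 0 → aeval x' f = 0 →
    aeval y' f = 0 → x + 1 / x ≠ y + 1 / y → x' + 1 / x' ≠ y' + 1 / y' →
    ∃ σ : f.Gal, σ (x + 1 / x) = x' + 1 / x' ∧ σ (y + 1 / y) = y' + 1 / y'

/-- The form `ψ` in `n` variables is a product of `F`-invariant bilinear forms: there is a perfect
matching `τ` of the `n` variables such that `ψ` is the product, over the matched pairs
`{i, τ i}` with `i < τ i`, of `B i (v i) (v (τ i))`, with `F`-invariant bilinear forms `B i`. -/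
def IsProductOfInvariantForms {Ω : Type*} [Field Ω] {V : Type*} [AddCommGroup V] [Module Ω V]
    (F : V →ₗ[Ω] V) {n : ℕ} (ψ : MultilinearMap Ω (fun _ : Fin n => V) Ω) : Prop :=
  ∃ (τ : Equiv.Perm (Fin n)) (B : Fin n → V →ₗ[Ω] V →ₗ[Ω] Ω),
    (∀ i, τ (τ i) = i) ∧ (∀ i, τ i ≠ i) ∧ (∀ i x y, B i (F x) (F y) = B i x y) ∧
    ∀ v, ψ v = ∏ i with i < τ i, B i (v i) (v (τ i))

theorem result (p : ℕ) [Fact p.Prime]
    (f : ℚ[X]) (hf : Irreducible f)
    (hunit : ∀ z : ℂ, aeval z f = 0 → ‖z‖ = 1)
    (hdt : DoublyTransitiveOnTraces f)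
    (κ : ℝ) (hκ : κ ≠ 0) (u : PadicAlgCl p → ℤ)
    (hu : ∀ α : PadicAlgCl p, aeval α f = 0 → Real.log ‖α‖ = κ * u α)
    (hodd : ¬ 4 ∣ Set.ncard {α : PadicAlgCl p | aeval α f = 0 ∧ Odd (u α)})
    (hne : ∃ α β : PadicAlgCl p, aeval α f = 0 ∧ aeval β f = 0 ∧ |u α| ≠ |u β|)
    (Ω : Type*) [Field Ω] [IsAlgClosed Ω] [CharZero Ω]
    (V : Type*) [AddCommGroup V] [Module Ω V] [FiniteDimensional Ω V] (F : V →ₗ[Ω] V)
    (hF : Submodule.span Ω {v : V | ∃ μ : Ω, aeval μ f = 0 ∧ F v = μ • v} = ⊤)
    (n s : ℕ) (hs : 0 < s) (φ : MultilinearMap Ω (fun _ : Fin n => V) Ω)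
    (hφ : ∀ v : Fin n → V, φ (fun i => (F ^ s) (v i)) = φ v) :
    φ ∈ Submodule.span Ω {ψ | IsProductOfInvariantForms F ψ} := by
  classical
  have hU : ∀ α : PadicAlgCl p, aeval α f = 0 →
      Pool.Agent.H925R2.dev p (1 : ℚ) α = (2 * κ) * u α := by
    intro α hα
    rw [Pool.Agent.H925R2.dev_one, hu α hα]
    ring
  have hκ2 : 2 * κ ≠ 0 := mul_ne_zero two_ne_zero hκ
  let e : f.SplittingField →ₐ[ℚ] PadicAlgCl p := IsAlgClosed.lift
  have hpad0 : ∀ α : PadicAlgCl p, aeval α f = 0 → α ≠ 0 :=
    fun α hα => Pool.Agent.H925R2.padic_root_ne_zero hf one_pos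
      (Pool.Agent.H925R2.weil_one hunit) p α hα
  have hpadinv : ∀ α : PadicAlgCl p, aeval α f = 0 →
      aeval (((1 : ℚ) : PadicAlgCl p) / α) f = 0 := by
    intro α hα
    obtain ⟨x, rfl⟩ := Pool.Agent.H925R2.exists_root_eq hf e α hα
    rw [← map_ratCast e, ← map_div₀, aeval_algHom_apply,
      Pool.Agent.H925R2.root_inv one_pos (Pool.Agent.H925R2.weil_one hunit) x.1
        ((mem_rootSet.1 x.2).2), map_zero]
  have huinv : ∀ α : PadicAlgCl p, aeval α f = 0 →
      u (((1 : ℚ) : PadicAlgCl p) / α) = - u α := by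
    intro α hα
    have h1 := Pool.Agent.H925R2.dev_inv p (one_ne_zero (α := ℚ)) α (hpad0 α hα)
    rw [hU α hα, hU _ (hpadinv α hα), ← mul_neg] at h1
    have h2 := mul_left_cancel₀ hκ2 h1
    exact_mod_cast h2
  have hhalf := Pool.Agent.H925R2.half_sum_odd p hf.ne_zero (one_ne_zero (α := ℚ)) hpad0 hpadinv u
    huinv hodd
  have hns : ∃ α : PadicAlgCl p, aeval α f = 0 ∧ Pool.Agent.H925R2.dev p (1 : ℚ) α ≠ 0 := by
    obtain ⟨α, β, hα, hβ, hab⟩ := hne
    by_contra hall
    push Not at hall
    have h1 := hall α hα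
    have h2 := hall β hβ
    rw [hU α hα, mul_eq_zero] at h1
    rw [hU β hβ, mul_eq_zero] at h2
    have h5 : u α = 0 := by exact_mod_cast h1.resolve_left hκ2
    have h6 : u β = 0 := by exact_mod_cast h2.resolve_left hκ2
    exact hab (by rw [h5, h6])
  have hdt' : Pool.Agent.H925R2.DoublyTransitive f 1 := by
    intro x y x' y'
    rw [Rat.cast_one]
    exact hdt x y x' y'
  obtain ⟨g, hdeg⟩ : ∃ g, f.natDegree = 2 * g := by
    obtain ⟨Φ, hΦ⟩ := Pool.Agent.H925R2.exists_isHalf
      (Pool.Agent.H925R2.rinv_rinv hf one_pos (Pool.Agent.H925R2.weil_one hunit))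
      (Pool.Agent.H925R2.rinv_ne_of_dev hf one_pos (Pool.Agent.H925R2.weil_one hunit) p e hns)
    refine ⟨Φ.card, ?_⟩
    rw [← Pool.Agent.H925R2.card_roots hf]
    exact hΦ.card (Pool.Agent.H925R2.rinv_rinv hf one_pos (Pool.Agent.H925R2.weil_one hunit))
  exact Pool.Agent.H925R2.multi_of_norel p hf hunit hns e
    (fun c hc hrel => Pool.Agent.H925R2.norel_B hf one_pos (Pool.Agent.H925R2.weil_one hunit) p e g
      hdeg hdt' (2 * κ) hκ2 u hU hhalf hne c hc hrel) F hF n s hs φ hφ

end Pool.Agent.Results.MP_40dc3c_ag.SurfacePowersParity
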